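import Pool.Agent.Q185.TreeK.Defs

/-!
MP_efe325_an (helper185): combinatorics of the dyadic tree.
-/

open MeasureTheory
open scoped ENNReal NNReal

namespace Pool.Agent.Q185.TreeK

noncomputable section

theorem mem_path (v x : Vertex) : v ∈ path x ↔ List.IsPrefix v x := by
  unfold path
  rw [List.mem_toFinset]
  exact List.mem_inits v x

theorem mem_geo (v x y : Vertex) : v ∈ geo x y ↔
    (List.IsPrefix v x ∧ ¬ List.IsPrefix v y) ∨ (List.IsPrefix v y ∧ ¬ List.IsPrefix v x) := by
  unfold geo
  rw [Finset.mem_symmDiff, mem_path, mem_path]

theorem geo_self (x : Vertex) : geo x x = ∅ := by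
  unfold geo; simp

theorem geo_subset (m x y : Vertex) : geo x y ⊆ geo m x ∪ geo m y := by
  intro v hv
  rw [Finset.mem_union, mem_geo, mem_geo]
  rw [mem_geo] at hv
  tauto

theorem path_cons (a : Bool) (x : List Bool) :
    path (a :: x : List Bool) = insert ([] : List Bool)
      ((path x).image fun v => (a :: v : List Bool)) := by
  ext v
  rw [mem_path]
  refine ⟨fun h => ?_, fun h => ?_⟩
  · rcases List.prefix_cons_iff.1 h with h | ⟨t, h, ht⟩
    · exact Finset.mem_insert.2 (Or.inl h)
    · exact Finset.mem_insert.2 (Or.inr (Finset.mem_image.2 ⟨t, (mem_path _ _).2 ht, h.symm⟩))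
  · rcases Finset.mem_insert.1 h with h | h
    · exact List.prefix_cons_iff.2 (Or.inl h)
    · obtain ⟨t, ht, h⟩ := Finset.mem_image.1 h
      exact List.prefix_cons_iff.2 (Or.inr ⟨t, h.symm, (mem_path _ _).1 ht⟩)

theorem path_nil : path ([] : List Bool) = {([] : List Bool)} := rfl

theorem nil_mem_path (x : Vertex) : ([] : List Bool) ∈ path x := (mem_path _ _).2 List.nil_prefix

theorem card_inter (x y : Vertex) : (((path x ∩ path y).card : ℕ) : ℤ) = dep (wedge x y) := by
  unfold dep
  have main : ∀ x y : List Bool, (path x ∩ path y).card = List.length (wedge x y) + 1 := by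
    intro x
    induction x with
    | nil =>
      intro y
      rw [path_nil, Finset.singleton_inter_of_mem (nil_mem_path y)]
      cases y <;> rfl
    | cons a x ih =>
      intro y
      cases y with
      | nil =>
        rw [path_nil, Finset.inter_singleton_of_mem (nil_mem_path _)]
        rfl
      | cons b y =>
        by_cases hab : a = b
        · subst hab
          have h1 : path (a :: x : List Bool) ∩ path (a :: y : List Bool) =
              insert ([] : List Bool) ((path x ∩ path y).image fun v => (a :: v : List Bool)) := by
            rw [path_cons, path_cons, ← Finset.insert_inter_distrib,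
              Finset.image_inter _ _ (fun u v h => (List.cons.inj h).2)]
          have h2 : wedge (a :: x : List Bool) (a :: y : List Bool) = (a :: wedge x y : List Bool) := by
            simp [wedge]
          rw [h1, h2, Finset.card_insert_of_notMem, Finset.card_image_of_injective _
            (fun u v h => (List.cons.inj h).2), ih]
          · rfl
          · intro h
            obtain ⟨t, _, h⟩ := Finset.mem_image.1 h
            exact List.cons_ne_nil _ _ h
        · have h1 : path (a :: x : List Bool) ∩ path (b :: y : List Bool) =
              {([] : List Bool)} := by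
            ext v
            rw [Finset.mem_inter, Finset.mem_singleton, mem_path, mem_path]
            refine ⟨fun h => ?_, fun h => ?_⟩
            · rcases List.prefix_cons_iff.1 h.1 with h3 | ⟨t, h3, _⟩
              · exact h3
              · rcases List.prefix_cons_iff.1 h.2 with h4 | ⟨t', h4, _⟩
                · exact h4
                · rw [h3] at h4
                  exact absurd (List.cons.inj h4).1 hab
            · subst h
              exact ⟨List.nil_prefix, List.nil_prefix⟩
          have h2 : wedge (a :: x : List Bool) (b :: y : List Bool) = ([] : List Bool) := by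
            simp [wedge, hab]
          rw [h1, h2]
          rfl
  exact_mod_cast main x y

/-- indicator of the edge `v` in `[o*, x]` -/
def ind (v x : Vertex) : ℤ := if v ∈ path x then 1 else 0

theorem card_eq_sum (x y : Vertex) (U : Finset Vertex) (hU : path x ∩ path y ⊆ U) :
    (((path x ∩ path y).card : ℕ) : ℤ) = ∑ v ∈ U, ind v x * ind v y := by
  rw [Finset.card_eq_sum_ones]
  push_cast
  rw [← Finset.sum_subset hU (f := fun v => ind v x * ind v y)]
  · refine Finset.sum_congr rfl fun v hv => ?_
    have := Finset.mem_inter.1 hv
    simp [ind, this.1, this.2]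
  · intro v _ hv
    rw [Finset.mem_inter, not_and_or] at hv
    rcases hv with hv | hv <;> simp [ind, hv]

theorem pre_total {v w x : Vertex} (h1 : List.IsPrefix v x) (h2 : List.IsPrefix w x) :
    List.IsPrefix v w ∨ List.IsPrefix w v := List.prefix_or_prefix_of_prefix h1 h2

theorem abs_k (p q : Vertex × Vertex) : |k p q| = ((geo p.1 p.2 ∩ geo q.1 q.2).card : ℕ) := by
  obtain ⟨a, b⟩ := p
  obtain ⟨x, y⟩ := q
  set U := path a ∪ path b ∪ path x ∪ path y with hU
  have hk : k (a, b) (x, y) = ∑ v ∈ U, (ind v a - ind v b) * (ind v x - ind v y) := by
    unfold k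
    simp only
    rw [← card_inter, ← card_inter, ← card_inter, ← card_inter,
      card_eq_sum a x U (fun v hv => by
        have := Finset.mem_inter.1 hv
        simp [hU, this.1]),
      card_eq_sum b y U (fun v hv => by
        have := Finset.mem_inter.1 hv
        simp [hU, this.1]),
      card_eq_sum a y U (fun v hv => by
        have := Finset.mem_inter.1 hv
        simp [hU, this.1]),
      card_eq_sum b x U (fun v hv => by
        have := Finset.mem_inter.1 hv
        simp [hU, this.1]), ← Finset.sum_add_distrib, ← Finset.sum_sub_distrib,
      ← Finset.sum_sub_distrib]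
    refine Finset.sum_congr rfl fun v _ => ?_
    ring
  have hc : (((geo a b ∩ geo x y).card : ℕ) : ℤ) =
      ∑ v ∈ U, |(ind v a - ind v b) * (ind v x - ind v y)| := by
    rw [Finset.card_eq_sum_ones]
    push_cast
    rw [← Finset.sum_subset (s₁ := geo a b ∩ geo x y) (s₂ := U)
      (f := fun v => |(ind v a - ind v b) * (ind v x - ind v y)|)]
    · refine Finset.sum_congr rfl fun v hv => ?_
      have := Finset.mem_inter.1 hv
      rw [mem_geo, mem_geo] at this
      rcases this with ⟨h1 | h1, h2 | h2⟩ <;> simp [ind, mem_path, h1, h2]
    · intro v hv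
      have := Finset.mem_inter.1 hv
      rw [mem_geo, mem_geo] at this
      simp only [hU, Finset.mem_union, mem_path]
      tauto
    · intro v _ hv
      rw [Finset.mem_inter, not_and_or, mem_geo, mem_geo] at hv
      rcases hv with hv | hv
      · have : ind v a - ind v b = 0 := by
          unfold ind
          simp only [mem_path]
          by_cases h1 : List.IsPrefix v a <;> by_cases h2 : List.IsPrefix v b <;> simp_all
        simp [this]
      · have : ind v x - ind v y = 0 := by
          unfold ind
          simp only [mem_path]
          by_cases h1 : List.IsPrefix v x <;> by_cases h2 : List.IsPrefix v y <;> simp_all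
        simp [this]
  simp only
  rw [hc, hk]
  by_cases hpos : ∀ v ∈ U, 0 ≤ (ind v a - ind v b) * (ind v x - ind v y)
  · rw [Finset.abs_sum_of_nonneg hpos]
    exact Finset.sum_congr rfl fun v hv => (abs_of_nonneg (hpos v hv)).symm
  · have hneg : ∀ v ∈ U, (ind v a - ind v b) * (ind v x - ind v y) ≤ 0 := by
      push Not at hpos
      obtain ⟨v, hv, hlt⟩ := hpos
      intro w hw
      by_contra hw2
      push Not at hw2
      unfold ind at hlt hw2
      simp only [mem_path] at hlt hw2
      by_cases a1 : List.IsPrefix v a <;> by_cases a2 : List.IsPrefix v b <;>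
      by_cases a3 : List.IsPrefix v x <;> by_cases a4 : List.IsPrefix v y <;>
      simp [a1, a2, a3, a4] at hlt <;>
      by_cases b1 : List.IsPrefix w a <;> by_cases b2 : List.IsPrefix w b <;>
      by_cases b3 : List.IsPrefix w x <;> by_cases b4 : List.IsPrefix w y <;>
      simp [b1, b2, b3, b4] at hw2
      · rcases pre_total a1 b1 with h | h
        · exact a3 (h.trans b3)
        · exact b4 (h.trans a4)
      · rcases pre_total a4 b4 with h | h
        · exact a2 (h.trans b2)
        · exact b1 (h.trans a1)
      · rcases pre_total a3 b3 with h | h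
        · exact a1 (h.trans b1)
        · exact b2 (h.trans a2)
      · rcases pre_total a2 b2 with h | h
        · exact a4 (h.trans b4)
        · exact b3 (h.trans a3)
    have e1 : ∑ v ∈ U, (ind v a - ind v b) * (ind v x - ind v y) =
        - ∑ v ∈ U, -((ind v a - ind v b) * (ind v x - ind v y)) := by
      rw [Finset.sum_neg_distrib, neg_neg]
    rw [e1, abs_neg, Finset.abs_sum_of_nonneg (fun v hv => by linarith [hneg v hv])]
    exact Finset.sum_congr rfl fun v hv => (abs_of_nonpos (hneg v hv)).symm

end

end Pool.Agent.Q185.TreeK
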