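import Mathlib

/-!
MP_efe325_an (helper185): absolute value of the kernel `k` on the dyadic tree.  Definitions.
-/

open MeasureTheory
open scoped ENNReal NNReal

namespace Pool.Agent.Q185.TreeK

noncomputable section

/-- The vertices of the infinite rooted dyadic tree: finite words, the root is the empty word and
the children of `v` are `v ++ [false]` and `v ++ [true]`. -/
abbrev Vertex : Type := List Bool

/-- All subsets of the vertex set are measurable. -/
instance : MeasurableSpace Vertex := ⊤
instance : DiscreteMeasurableSpace Vertex := ⟨fun _ => trivial⟩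

/-- The parent of a vertex; `none` is the additional vertex `o*`, the parent of the root. -/
def parent (v : Vertex) : Option Vertex := if v = [] then none else some v.dropLast

/-- The gradient of a function on the vertices (including `o*`). The edges are indexed by their
lower end point `v`, the edge from `parent v` to `v`. -/
def grad {𝕜 : Type*} [RCLike 𝕜] (F : Option Vertex → 𝕜) (v : Vertex) : 𝕜 := F (some v) - F (parent v)

/-- The edges of the geodesic from `o*` to `x`. -/
def path (x : Vertex) : Finset Vertex := (List.inits x).toFinset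

/-- The edges of the geodesic from `x` to `y`. -/
def geo (x y : Vertex) : Finset Vertex := symmDiff (path x) (path y)

/-- `x ∧ y`: the last common vertex of the geodesics from `o*` to `x` and to `y`. -/
def wedge : Vertex → Vertex → Vertex
  | a :: x, b :: y => if a = b then a :: wedge x y else []
  | _, _ => []

/-- The number of edges of the geodesic from `o*` to `z`. -/
def dep (z : Vertex) : ℤ := (List.length z : ℤ) + 1

/-- The kernel `k`. -/
def k (p q : Vertex × Vertex) : ℤ :=
  dep (wedge p.1 q.1) + dep (wedge p.2 q.2) - dep (wedge p.1 q.2) - dep (wedge p.2 q.1)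

/-- Condition (a'). -/
def CondA (𝕜 : Type*) [RCLike 𝕜] (μ : Measure Vertex) : Prop :=
  ∃ C : ℝ≥0, ∀ F : Option Vertex → 𝕜,
    ∫⁻ p : Vertex × Vertex, ‖F (some p.1) - F (some p.2)‖ₑ ^ 2 ∂(μ.prod μ) ≤ C * ∑' v, ‖grad F v‖ₑ ^ 2

/-- Condition (b), for the Hilbert space `H` of functions on `T × T`. -/
def CondB {𝕜 : Type*} [RCLike 𝕜] (H : Type*) [NormedAddCommGroup H] [InnerProductSpace 𝕜 H]
    [RKHS 𝕜 H (Vertex × Vertex) 𝕜] (μ : Measure Vertex) : Prop :=
  ∃ C : ℝ≥0, ∀ G : H, ∫⁻ p : Vertex × Vertex, ‖G p‖ₑ ^ 2 ∂(μ.prod μ) ≤ C * ‖G‖ₑ ^ 2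

end

end Pool.Agent.Q185.TreeK
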