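import Pool.Agent.Q185.TreeK.Space

/-!
MP_efe325_an (helper185): test functions.
-/

open MeasureTheory Filter
open scoped ENNReal NNReal Topology

namespace Pool.Agent.Q185.TreeK

noncomputable section

theorem path_snoc (u : Vertex) (b : Bool) : path (u ++ [b]) = insert (u ++ [b]) (path u) := by
  ext w
  rw [mem_path, Finset.mem_insert, mem_path, List.prefix_concat_iff]

theorem snoc_notMem (u : Vertex) (b : Bool) : u ++ [b] ∉ path u := by
  rw [mem_path]
  intro h
  have := h.length_le
  simp at this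

theorem parent_snoc (u : Vertex) (b : Bool) : parent (u ++ [b]) = some u := by
  unfold parent
  simp

theorem parent_nil : parent [] = none := by unfold parent; simp

/-- the weight of a path from `m` to `x` -/
def wt (c : Vertex → ℝ≥0) (m x : Vertex) : ℝ≥0 := ∑ v ∈ geo m x, c v

theorem wt_self (c : Vertex → ℝ≥0) (m : Vertex) : wt c m m = 0 := by
  unfold wt; rw [geo_self]; simp

theorem wt_snoc (c : Vertex → ℝ≥0) (m u : Vertex) (b : Bool) :
    wt c m (u ++ [b]) = wt c m u + c (u ++ [b]) ∨ wt c m u = wt c m (u ++ [b]) + c (u ++ [b]) := by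
  have h0 := snoc_notMem u b
  by_cases h : u ++ [b] ∈ path m
  · right
    have h1 : geo m u = insert (u ++ [b]) (geo m (u ++ [b])) := by
      ext w
      unfold geo
      rw [path_snoc]
      simp only [Finset.mem_symmDiff, Finset.mem_insert]
      by_cases hw : w = u ++ [b]
      · subst hw; tauto
      · tauto
    have h2 : u ++ [b] ∉ geo m (u ++ [b]) := by
      unfold geo
      rw [path_snoc]
      simp only [Finset.mem_symmDiff, Finset.mem_insert]
      tauto
    unfold wt
    rw [h1, Finset.sum_insert h2, add_comm]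
  · left
    have h1 : geo m (u ++ [b]) = insert (u ++ [b]) (geo m u) := by
      ext w
      unfold geo
      rw [path_snoc]
      simp only [Finset.mem_symmDiff, Finset.mem_insert]
      by_cases hw : w = u ++ [b]
      · subst hw; tauto
      · tauto
    have h2 : u ++ [b] ∉ geo m u := by
      unfold geo
      simp only [Finset.mem_symmDiff]
      tauto
    unfold wt
    rw [h1, Finset.sum_insert h2, add_comm]

theorem wt_le (c : Vertex → ℝ≥0) (m x y : Vertex) : ∑ v ∈ geo x y, c v ≤ wt c m x + wt c m y := by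
  unfold wt
  calc ∑ v ∈ geo x y, c v ≤ ∑ v ∈ geo m x ∪ geo m y, c v :=
        Finset.sum_le_sum_of_subset (geo_subset m x y)
    _ ≤ _ := by
      rw [← Finset.sum_union_inter]
      exact le_self_add

variable (𝕜 : Type) [RCLike 𝕜]

open Classical in
/-- the function `wt` cut off outside `A` -/
def cut (c : Vertex → ℝ≥0) (m : Vertex) (A : Set Vertex) (x : Option Vertex) : 𝕜 :=
  let y := x.getD []
  if y ∈ A then ((wt c m y : ℝ) : 𝕜) else 0

theorem cut_some_mem (c : Vertex → ℝ≥0) (m : Vertex) {A : Set Vertex} {x : Vertex} (hx : x ∈ A) :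
    cut 𝕜 c m A (some x) = ((wt c m x : ℝ) : 𝕜) := by
  simp [cut, hx]

theorem cut_some_not (c : Vertex → ℝ≥0) (m : Vertex) {A : Set Vertex} {x : Vertex} (hx : x ∉ A) :
    cut 𝕜 c m A (some x) = 0 := by
  simp [cut, hx]

/-- all edges between `A` and its complement meet `m` outside `A` -/
def Comp (m : Vertex) (A : Set Vertex) : Prop :=
  ∀ (u : Vertex) (b : Bool), (u ∈ A → u ++ [b] ∉ A → u ++ [b] = m) ∧
    (u ∉ A → u ++ [b] ∈ A → u = m)

theorem cut_grad (c : Vertex → ℝ≥0) (m : Vertex) {A : Set Vertex} (hA : Comp m A) (v : Vertex) :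
    ‖grad (cut 𝕜 c m A) v‖₊ ≤ c v := by
  unfold grad
  rcases List.eq_nil_or_concat v with rfl | ⟨u, b, rfl⟩
  · rw [parent_nil]
    simp [cut]
  · rw [List.concat_eq_append, parent_snoc]
    have key : ‖(((wt c m (u ++ [b]) : ℝ) : 𝕜) - ((wt c m u : ℝ) : 𝕜))‖₊ = c (u ++ [b]) := by
      rw [← NNReal.coe_inj, coe_nnnorm, ← RCLike.ofReal_sub, RCLike.norm_ofReal]
      rcases wt_snoc c m u b with h | h
      · rw [h]; push_cast; rw [add_sub_cancel_left]; simp
      · rw [h]; push_cast; rw [sub_add_cancel_left, abs_neg]; simp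
    obtain ⟨hA1, hA2⟩ := hA u b
    by_cases h1 : u ++ [b] ∈ A <;> by_cases h2 : u ∈ A
    · rw [cut_some_mem 𝕜 c m h1, cut_some_mem 𝕜 c m h2, key]
    · have h3 := hA2 h2 h1
      rw [cut_some_mem 𝕜 c m h1, cut_some_not 𝕜 c m h2]
      have h4 : wt c m u = 0 := by rw [h3, wt_self]
      rw [h4] at key
      rw [← key]
      simp
    · have h3 := hA1 h2 h1
      rw [cut_some_not 𝕜 c m h1, cut_some_mem 𝕜 c m h2]
      have h4 : wt c m (u ++ [b]) = 0 := by rw [h3, wt_self]
      rw [h4] at key
      rw [← key]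
      simp
    · rw [cut_some_not 𝕜 c m h1, cut_some_not 𝕜 c m h2]
      simp

theorem comp_below (m : Vertex) (b : Bool) : Comp m {x | List.IsPrefix (m ++ [b]) x} := by
  intro u a
  refine ⟨fun h1 h2 => absurd (h1.trans (List.prefix_append u [a])) h2, fun h1 h2 => ?_⟩
  rcases List.prefix_concat_iff.1 h2 with h | h
  · exact (List.append_inj' h rfl).1.symm
  · exact absurd h h1

theorem comp_above (m : Vertex) : Comp m {x | ¬ List.IsPrefix m x} := by
  intro u a
  refine ⟨fun h1 h2 => ?_, fun h1 h2 => ?_⟩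
  · simp only [Set.mem_ofPred_eq, not_not] at h1 h2
    rcases List.prefix_concat_iff.1 h2 with h | h
    · exact h.symm
    · exact absurd h h1
  · simp only [Set.mem_ofPred_eq, not_not] at h1 h2
    exact absurd (h1.trans (List.prefix_append u [a])) h2

theorem cover (m x : Vertex) (hx : x ≠ m) : List.IsPrefix (m ++ [false]) x ∨
    List.IsPrefix (m ++ [true]) x ∨ ¬ List.IsPrefix m x := by
  by_cases h : List.IsPrefix m x
  · obtain ⟨t, rfl⟩ := h
    cases t with
    | nil => simp at hx
    | cons b t =>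
      cases b
      · left; exact ⟨t, by simp⟩
      · right; left; exact ⟨t, by simp⟩
  · right; right; exact h

open Classical in
/-- the indicator of the subtree with root `v` -/
def indic (v : Vertex) : Option Vertex → 𝕜
  | none => 0
  | some x => if List.IsPrefix v x then 1 else 0

theorem indic_grad (v w : Vertex) : grad (indic 𝕜 v) w = if w = v then 1 else 0 := by
  classical
  unfold grad
  rcases List.eq_nil_or_concat w with rfl | ⟨u, b, rfl⟩
  · rw [parent_nil]
    simp [indic, eq_comm]
  · rw [List.concat_eq_append, parent_snoc]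
    simp only [indic, List.prefix_concat_iff]
    by_cases h1 : v = u ++ [b]
    · have h2 : ¬ List.IsPrefix v u := by
        rw [h1]; intro h; have := h.length_le; simp at this
      rw [if_pos (Or.inl h1), if_neg h2, if_pos h1.symm, sub_zero]
    · rw [if_neg (fun h : u ++ [b] = v => h1 h.symm)]
      by_cases h3 : List.IsPrefix v u
      · rw [if_pos (Or.inr h3), if_pos h3, sub_self]
      · rw [if_neg (not_or.2 ⟨h1, h3⟩), if_neg h3, sub_self]

/-- telescoping along a geodesic -/
theorem telescope (F : Option Vertex → 𝕜) (x : Vertex) :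
    F (some x) = F none + ∑ v ∈ path x, grad F v := by
  refine List.reverseRecOn x ?_ fun u b ih => ?_
  · rw [path_nil, Finset.sum_singleton]
    unfold grad
    rw [parent_nil]; ring
  · rw [path_snoc, Finset.sum_insert (snoc_notMem u b)]
    have : grad F (u ++ [b]) = F (some (u ++ [b])) - F (some u) := by
      unfold grad; rw [parent_snoc]
    rw [this, ih]; ring

theorem diff_le (F : Option Vertex → 𝕜) (x y : Vertex) :
    ‖F (some x) - F (some y)‖ ≤ ∑ v ∈ geo x y, ‖grad F v‖ := by
  have h1 : F (some x) - F (some y) = ∑ v ∈ path x \ path y, grad F v -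
      ∑ v ∈ path y \ path x, grad F v := by
    rw [telescope 𝕜 F x, telescope 𝕜 F y]
    have h2 := Finset.sum_inter_add_sum_sdiff (path x) (path y) (fun v => grad F v)
    have h3 := Finset.sum_inter_add_sum_sdiff (path y) (path x) (fun v => grad F v)
    rw [Finset.inter_comm] at h3
    rw [← h2, ← h3]; ring
  have h4 : geo x y = (path x \ path y) ∪ (path y \ path x) := rfl
  rw [h1, h4, Finset.sum_union]
  · refine (norm_sub_le _ _).trans (add_le_add (norm_sum_le _ _) (norm_sum_le _ _))
  · rw [Finset.disjoint_left]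
    intro v h5 h6
    simp only [Finset.mem_sdiff] at h5 h6
    exact h5.2 h6.1

theorem enorm_sq (c : L 𝕜) : ‖c‖ₑ ^ 2 = ∑' v, ‖c v‖ₑ ^ 2 := by
  have h : HasSum (fun v => ‖c v‖ ^ 2) (‖c‖ ^ 2) := by
    have := lp.hasSum_norm (p := 2) (by norm_num) c
    simpa using this
  have h1 : ‖c‖ₑ ^ 2 = ENNReal.ofReal (‖c‖ ^ 2) := by
    rw [ENNReal.ofReal_pow (norm_nonneg _), ofReal_norm]
  rw [h1, ← h.tsum_eq, ENNReal.ofReal_tsum_of_nonneg (fun v => by positivity) h.summable]
  refine tsum_congr fun v => ?_
  rw [ENNReal.ofReal_pow (norm_nonneg _), ofReal_norm]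

theorem mem_of_finite (c : Vertex → 𝕜) (h : ∑' v, ‖c v‖ₑ ^ 2 ≠ ∞) : Memℓp c 2 := by
  rw [memℓp_gen_iff (by norm_num)]
  have h1 : ∀ v, ‖c v‖ₑ ^ 2 = ENNReal.ofReal (‖c v‖ ^ 2) := fun v => by
    rw [ENNReal.ofReal_pow (norm_nonneg _), ofReal_norm]
  simp only [h1] at h
  have h2 := ENNReal.summable_toReal h
  refine h2.congr fun v => ?_
  rw [ENNReal.toReal_ofReal (by positivity)]
  simp

end

end Pool.Agent.Q185.TreeK
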