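import Pool.Agent.Q185.TreeK.Fun

/-!
MP_efe325_an (helper185): (a') and (b) are equivalent.
-/

open MeasureTheory Filter
open scoped ENNReal NNReal Topology

namespace Pool.Agent.Q185.TreeK

noncomputable section

variable {𝕜 : Type} [RCLike 𝕜] {μ : Measure Vertex}

theorem lower (F : Option Vertex → 𝕜) (A : Set Vertex) (hF : ∀ x ∉ A, F (some x) = 0) :
    (∫⁻ x in A, ‖F (some x)‖ₑ ^ 2 ∂μ) * μ Aᶜ ≤
      ∫⁻ p : Vertex × Vertex, ‖F (some p.1) - F (some p.2)‖ₑ ^ 2 ∂(μ.prod μ) := by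
  rw [lintegral_prod _ (Measurable.of_discrete).aemeasurable,
    ← lintegral_mul_const _ Measurable.of_discrete]
  calc ∫⁻ x in A, ‖F (some x)‖ₑ ^ 2 * μ Aᶜ ∂μ
      = ∫⁻ x in A, ∫⁻ y in Aᶜ, ‖F (some x) - F (some y)‖ₑ ^ 2 ∂μ ∂μ := by
        refine lintegral_congr fun x => ?_
        rw [← setLIntegral_const]
        refine setLIntegral_congr_fun (MeasurableSet.of_discrete) fun y hy => ?_
        rw [hF y hy, sub_zero]
    _ ≤ ∫⁻ x in A, ∫⁻ y, ‖F (some x) - F (some y)‖ₑ ^ 2 ∂μ ∂μ :=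
        lintegral_mono fun x => setLIntegral_le_lintegral _ _
    _ ≤ _ := setLIntegral_le_lintegral _ _

/-- if `x` and `y` are both charged then the total mass is finite -/
theorem finite_mass (h : CondA 𝕜 μ) {x y : Vertex} (hxy : x ≠ y) (hx : μ {x} ≠ 0)
    (hy : μ {y} ≠ 0) : μ Set.univ ≠ ∞ := by
  have key : ∀ x y v : Vertex, μ {x} ≠ 0 → μ {y} ≠ 0 → List.IsPrefix v x → ¬ List.IsPrefix v y →
      μ Set.univ ≠ ∞ := by
    intro x y v hx hy h1 h2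
    obtain ⟨C, hC⟩ := h
    set A : Set Vertex := {z | List.IsPrefix v z} with hA
    have h3 := lower (μ := μ) (indic 𝕜 v) A (fun z hz => if_neg hz)
    have h4 := h3.trans (hC (indic 𝕜 v))
    have h5 : ∑' w, ‖grad (indic 𝕜 v) w‖ₑ ^ 2 = 1 := by
      rw [tsum_eq_single v]
      · rw [indic_grad, if_pos rfl]; simp
      · intro w hw
        rw [indic_grad, if_neg hw]; simp
    have h6 : ∫⁻ z in A, ‖indic 𝕜 v (some z)‖ₑ ^ 2 ∂μ = μ A := by
      rw [← setLIntegral_one]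
      refine setLIntegral_congr_fun (MeasurableSet.of_discrete) fun z hz => ?_
      have : indic 𝕜 v (some z) = 1 := if_pos hz
      rw [this]; simp
    rw [h5, h6, mul_one] at h4
    have h7 : μ A * μ Aᶜ < ∞ := lt_of_le_of_lt h4 ENNReal.coe_lt_top
    have h8 : μ A ≠ 0 := fun h0 => hx (measure_mono_null (Set.singleton_subset_iff.2 h1) h0)
    have h9 : μ Aᶜ ≠ 0 := fun h0 => hy (measure_mono_null (Set.singleton_subset_iff.2 h2) h0)
    rw [ENNReal.mul_lt_top_iff] at h7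
    have h10 : μ A < ∞ ∧ μ Aᶜ < ∞ := by tauto
    rw [← measure_add_measure_compl (μ := μ) (s := A) MeasurableSet.of_discrete]
    exact (ENNReal.add_lt_top.2 h10).ne
  have h1 : ∃ v, v ∈ geo x y := by
    by_contra h2
    push Not at h2
    have h3 : geo x y = ∅ := Finset.eq_empty_of_forall_notMem h2
    unfold geo at h3
    rw [Finset.symmDiff_eq_empty] at h3
    have h4 : List.IsPrefix x y := (mem_path _ _).1 (h3 ▸ (mem_path x x).2 (List.prefix_refl x))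
    have h5 : List.IsPrefix y x := (mem_path _ _).1 (h3 ▸ (mem_path y y).2 (List.prefix_refl y))
    exact hxy (h4.eq_of_length (le_antisymm h4.length_le h5.length_le))
  obtain ⟨v, hv⟩ := h1
  rw [mem_geo] at hv
  rcases hv with hv | hv
  · exact key x y v hx hy hv.1 hv.2
  · exact key y x v hy hx hv.1 hv.2

/-- the median vertex -/
theorem exists_median (h0 : μ Set.univ ≠ 0) (hfin : μ Set.univ ≠ ∞) : ∃ m : Vertex,
    (∀ b, μ {x | List.IsPrefix (m ++ [b]) x} ≤ μ Set.univ / 2) ∧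
      μ {x | ¬ List.IsPrefix m x} ≤ μ Set.univ / 2 := by
  have hpos : 0 < μ Set.univ / 2 := ENNReal.half_pos h0
  have hlt : μ Set.univ / 2 < μ Set.univ := ENNReal.half_lt_self h0 hfin
  -- long words carry little mass
  obtain ⟨N, hN⟩ : ∃ N : ℕ, μ {x : Vertex | N ≤ x.length} < μ Set.univ / 2 := by
    have h1 := tendsto_measure_iInter_atTop (μ := μ) (s := fun n : ℕ => {x : Vertex | n ≤ x.length})
      (fun n => MeasurableSet.nullMeasurableSet MeasurableSet.of_discrete)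
      (fun a b hab x hx => le_trans hab hx) ⟨0, ne_top_of_le_ne_top hfin (measure_mono (Set.subset_univ _))⟩
    have h2 : (⋂ n : ℕ, {x : Vertex | n ≤ x.length}) = ∅ := by
      ext x
      simp only [Set.mem_iInter, Set.mem_ofPred_eq, Set.mem_empty_iff_false, iff_false, not_forall,
        not_le]
      exact ⟨x.length + 1, Nat.lt_succ_self _⟩
    rw [h2, measure_empty] at h1
    obtain ⟨N, hN⟩ := (h1.eventually (gt_mem_nhds hpos)).exists
    exact ⟨N, hN⟩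
  set S : Set ℕ := {n | ∃ v : Vertex, v.length = n ∧ μ Set.univ / 2 < μ {x | List.IsPrefix v x}}
    with hS
  have hne : S.Nonempty := by
    refine ⟨0, [], rfl, ?_⟩
    have : {x : Vertex | List.IsPrefix [] x} = Set.univ := by
      ext x; simp
    rw [this]; exact hlt
  have hbdd : BddAbove S := by
    refine ⟨N, ?_⟩
    rintro n ⟨v, rfl, hv⟩
    by_contra hn
    push Not at hn
    have : {x : Vertex | List.IsPrefix v x} ⊆ {x : Vertex | N ≤ x.length} := fun x hx =>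
      le_trans hn.le (List.IsPrefix.length_le hx)
    exact absurd (lt_of_lt_of_le hv (measure_mono this)) (not_lt.2 hN.le)
  obtain ⟨m, hm, hm2⟩ := Nat.sSup_mem hne hbdd
  refine ⟨m, fun b => ?_, ?_⟩
  · by_contra hb
    push Not at hb
    have := le_csSup hbdd ⟨m ++ [b], rfl, hb⟩
    rw [← hm] at this
    simp at this
  · have h1 := measure_add_measure_compl (μ := μ) (s := {x : Vertex | List.IsPrefix m x})
      MeasurableSet.of_discrete
    have h2 : ({x : Vertex | List.IsPrefix m x})ᶜ = {x | ¬ List.IsPrefix m x} := rfl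
    rw [h2] at h1
    by_contra h3
    push Not at h3
    have h4 := ENNReal.add_lt_add hm2 h3
    rw [h1, ENNReal.add_halves] at h4
    exact lt_irrefl _ h4

theorem piece {C : ℝ≥0} (hC : ∀ F : Option Vertex → 𝕜,
      ∫⁻ p : Vertex × Vertex, ‖F (some p.1) - F (some p.2)‖ₑ ^ 2 ∂(μ.prod μ) ≤
        C * ∑' v, ‖grad F v‖ₑ ^ 2) (hfin : μ Set.univ ≠ ∞)
    (c : Vertex → ℝ≥0) (m : Vertex) (A : Set Vertex) (hA : Comp m A) (hA2 : μ A ≤ μ Set.univ / 2) :
    (∫⁻ x in A, (wt c m x : ℝ≥0∞) ^ 2 ∂μ) * (μ Set.univ / 2) ≤ C * ∑' v, (c v : ℝ≥0∞) ^ 2 := by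
  have h1 : μ Set.univ / 2 ≤ μ Aᶜ := by
    have h1 := measure_add_measure_compl (μ := μ) (s := A) MeasurableSet.of_discrete
    by_contra h3
    push Not at h3
    have h4 := ENNReal.add_lt_add_of_le_of_lt (ne_top_of_le_ne_top hfin
      (measure_mono (Set.subset_univ A))) hA2 h3
    rw [h1, ENNReal.add_halves] at h4
    exact lt_irrefl _ h4
  have h2 := lower (μ := μ) (cut 𝕜 c m A) A (fun x hx => cut_some_not 𝕜 c m hx)
  have h3 : ∫⁻ x in A, ‖cut 𝕜 c m A (some x)‖ₑ ^ 2 ∂μ = ∫⁻ x in A, (wt c m x : ℝ≥0∞) ^ 2 ∂μ := by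
    refine setLIntegral_congr_fun (MeasurableSet.of_discrete) fun x hx => ?_
    rw [cut_some_mem 𝕜 c m hx]
    congr 1
    rw [enorm_eq_nnnorm, ENNReal.coe_inj, ← NNReal.coe_inj, coe_nnnorm, RCLike.norm_ofReal]
    simp
  rw [h3] at h2
  calc (∫⁻ x in A, (wt c m x : ℝ≥0∞) ^ 2 ∂μ) * (μ Set.univ / 2)
      ≤ (∫⁻ x in A, (wt c m x : ℝ≥0∞) ^ 2 ∂μ) * μ Aᶜ := by gcongr
    _ ≤ _ := h2
    _ ≤ C * ∑' v, ‖grad (cut 𝕜 c m A) v‖ₑ ^ 2 := hC _
    _ ≤ C * ∑' v, (c v : ℝ≥0∞) ^ 2 := by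
        gcongr with v
        rw [enorm_eq_nnnorm]
        exact_mod_cast cut_grad 𝕜 c m hA v

theorem main_bound {C : ℝ≥0} (hC : ∀ F : Option Vertex → 𝕜,
      ∫⁻ p : Vertex × Vertex, ‖F (some p.1) - F (some p.2)‖ₑ ^ 2 ∂(μ.prod μ) ≤
        C * ∑' v, ‖grad F v‖ₑ ^ 2) (hfin : μ Set.univ ≠ ∞)
    (c : Vertex → ℝ≥0) :
    ∫⁻ p : Vertex × Vertex, ((∑ v ∈ geo p.1 p.2, c v : ℝ≥0) : ℝ≥0∞) ^ 2 ∂(μ.prod μ) ≤
      24 * C * ∑' v, (c v : ℝ≥0∞) ^ 2 := by
  by_cases h0 : μ Set.univ = 0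
  · have : μ = 0 := Measure.measure_univ_eq_zero.1 h0
    subst this
    simp
  obtain ⟨m, hm1, hm2⟩ := exists_median h0 hfin
  have p0 := piece hC hfin c m _ (comp_below m false) (hm1 false)
  have p1 := piece hC hfin c m _ (comp_below m true) (hm1 true)
  have p2 := piece hC hfin c m _ (comp_above m) hm2
  set Q := C * ∑' v, (c v : ℝ≥0∞) ^ 2 with hQ
  set A0 : Set Vertex := {x | List.IsPrefix (m ++ [false]) x}
  set A1 : Set Vertex := {x | List.IsPrefix (m ++ [true]) x}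
  set A2 : Set Vertex := {x | ¬ List.IsPrefix m x}
  have hsum : ∫⁻ x, (wt c m x : ℝ≥0∞) ^ 2 ∂μ ≤ ∫⁻ x in A0, (wt c m x : ℝ≥0∞) ^ 2 ∂μ +
      ∫⁻ x in A1, (wt c m x : ℝ≥0∞) ^ 2 ∂μ + ∫⁻ x in A2, (wt c m x : ℝ≥0∞) ^ 2 ∂μ := by
    rw [← lintegral_indicator MeasurableSet.of_discrete, ← lintegral_indicator MeasurableSet.of_discrete,
      ← lintegral_indicator MeasurableSet.of_discrete, ← lintegral_add_left Measurable.of_discrete,
      ← lintegral_add_left Measurable.of_discrete]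
    refine lintegral_mono fun x => ?_
    by_cases hx : x = m
    · subst hx
      rw [wt_self]; simp
    · rcases cover m x hx with h | h | h
      · have h' : x ∈ A0 := h
        simp only [Set.indicator_of_mem h']
        rw [add_assoc]; exact le_self_add
      · have h' : x ∈ A1 := h
        simp only [Set.indicator_of_mem h']
        exact (le_add_self).trans le_self_add
      · have h' : x ∈ A2 := h
        simp only [Set.indicator_of_mem h']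
        exact le_add_self
  have hM : (∫⁻ x, (wt c m x : ℝ≥0∞) ^ 2 ∂μ) * (μ Set.univ / 2) ≤ 3 * Q := by
    calc (∫⁻ x, (wt c m x : ℝ≥0∞) ^ 2 ∂μ) * (μ Set.univ / 2)
        ≤ (∫⁻ x in A0, (wt c m x : ℝ≥0∞) ^ 2 ∂μ + ∫⁻ x in A1, (wt c m x : ℝ≥0∞) ^ 2 ∂μ +
            ∫⁻ x in A2, (wt c m x : ℝ≥0∞) ^ 2 ∂μ) * (μ Set.univ / 2) := by gcongr
      _ ≤ Q + Q + Q := by rw [add_mul, add_mul]; gcongr
      _ = 3 * Q := by ring
  have hpt : ∀ p : Vertex × Vertex, ((∑ v ∈ geo p.1 p.2, c v : ℝ≥0) : ℝ≥0∞) ^ 2 ≤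
      2 * (wt c m p.1 : ℝ≥0∞) ^ 2 + 2 * (wt c m p.2 : ℝ≥0∞) ^ 2 := by
    intro p
    have h1 := wt_le c m p.1 p.2
    have h2 : (∑ v ∈ geo p.1 p.2, c v) ^ 2 ≤ 2 * wt c m p.1 ^ 2 + 2 * wt c m p.2 ^ 2 := by
      refine (pow_le_pow_left₀ zero_le h1 2).trans ?_
      rw [← NNReal.coe_le_coe]
      push_cast
      nlinarith [sq_nonneg ((wt c m p.1 : ℝ) - (wt c m p.2 : ℝ))]
    exact_mod_cast h2
  calc ∫⁻ p : Vertex × Vertex, ((∑ v ∈ geo p.1 p.2, c v : ℝ≥0) : ℝ≥0∞) ^ 2 ∂(μ.prod μ)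
      ≤ ∫⁻ p : Vertex × Vertex, (2 * (wt c m p.1 : ℝ≥0∞) ^ 2 + 2 * (wt c m p.2 : ℝ≥0∞) ^ 2)
          ∂(μ.prod μ) := lintegral_mono hpt
    _ = 4 * ((∫⁻ x, (wt c m x : ℝ≥0∞) ^ 2 ∂μ) * μ Set.univ) := by
        rw [lintegral_prod _ (Measurable.of_discrete).aemeasurable]
        have h1 : ∀ x : Vertex, ∫⁻ y : Vertex, (2 * (wt c m x : ℝ≥0∞) ^ 2 +
            2 * (wt c m y : ℝ≥0∞) ^ 2) ∂μ = 2 * (wt c m x : ℝ≥0∞) ^ 2 * μ Set.univ +
              2 * ∫⁻ y, (wt c m y : ℝ≥0∞) ^ 2 ∂μ := by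
          intro x
          rw [lintegral_add_left measurable_const, lintegral_const, lintegral_const_mul _
            Measurable.of_discrete]
        simp only [h1]
        rw [lintegral_add_left Measurable.of_discrete, lintegral_const,
          lintegral_mul_const _ Measurable.of_discrete, lintegral_const_mul _
            Measurable.of_discrete]
        ring
    _ = 8 * ((∫⁻ x, (wt c m x : ℝ≥0∞) ^ 2 ∂μ) * (μ Set.univ / 2)) := by
        have h2 : μ Set.univ = 2 * (μ Set.univ / 2) := by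
          rw [two_mul, ENNReal.add_halves]
        nth_rw 1 [h2]
        ring
    _ ≤ 8 * (3 * Q) := by gcongr
    _ = 24 * C * ∑' v, (c v : ℝ≥0∞) ^ 2 := by rw [hQ]; ring

variable {H : Type*} [NormedAddCommGroup H] [InnerProductSpace 𝕜 H] [CompleteSpace H]
    [RKHS 𝕜 H (Vertex × Vertex) 𝕜]

theorem b_of_a (hH : ∀ p q, RKHS.kernel H p q (1 : 𝕜) = ((|k p q| : ℤ) : 𝕜)) (h : CondA 𝕜 μ) :
    CondB H μ := by
  by_cases htriv : ∀ x y : Vertex, x ≠ y → μ {x} = 0 ∨ μ {y} = 0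
  · refine ⟨0, fun G => ?_⟩
    obtain ⟨g, hg, hn⟩ := exists_weight hH G
    have h1 : ∫⁻ p : Vertex × Vertex, ‖G p‖ₑ ^ 2 ∂(μ.prod μ) = 0 := by
      rw [lintegral_prod _ (Measurable.of_discrete).aemeasurable, lintegral_countable',
        ENNReal.tsum_eq_zero]
      intro x
      rw [mul_eq_zero, or_iff_not_imp_right]
      intro hx
      rw [lintegral_countable', ENNReal.tsum_eq_zero]
      intro y
      by_cases hxy : x = y
      · subst hxy
        rw [hg, geo_self]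
        simp
      · rw [(htriv x y hxy).resolve_left hx, mul_zero]
    rw [h1]; simp
  · push Not at htriv
    obtain ⟨x, y, hxy, hx, hy⟩ := htriv
    have hfin := finite_mass h hxy hx hy
    obtain ⟨C, hC⟩ := h
    refine ⟨24 * C, fun G => ?_⟩
    obtain ⟨g, hg, hn⟩ := exists_weight hH G
    have h1 := main_bound hC hfin (fun v => ‖g v‖₊)
    have h2 : ‖G‖ₑ ^ 2 = ∑' v, ((‖g v‖₊ : ℝ≥0) : ℝ≥0∞) ^ 2 := by
      have h3 : ‖G‖ₑ = ‖g‖ₑ := by
        rw [enorm_eq_nnnorm, enorm_eq_nnnorm, ENNReal.coe_inj, ← NNReal.coe_inj]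
        exact hn.symm
      rw [h3, enorm_sq]
      rfl
    rw [h2]
    refine le_trans (lintegral_mono fun p => ?_) (h1.trans (by push_cast; rfl))
    have h4 : ‖G p‖₊ ≤ ∑ v ∈ geo p.1 p.2, ‖g v‖₊ := by
      rw [hg]; exact nnnorm_sum_le _ _
    have h5 : ‖G p‖ₑ ≤ ((∑ v ∈ geo p.1 p.2, ‖g v‖₊ : ℝ≥0) : ℝ≥0∞) := by
      rw [enorm_eq_nnnorm]; exact_mod_cast h4
    exact pow_le_pow_left₀ zero_le h5 2

theorem a_of_b (hH : ∀ p q, RKHS.kernel H p q (1 : 𝕜) = ((|k p q| : ℤ) : 𝕜)) (h : CondB H μ) :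
    CondA 𝕜 μ := by
  obtain ⟨C, hC⟩ := h
  refine ⟨C + 1, fun F => ?_⟩
  by_cases hfin : ∑' v, ‖grad F v‖ₑ ^ 2 = ∞
  · rw [hfin, ENNReal.mul_top (by simp)]
    exact le_top
  · have h1 : ∀ v, ‖((‖grad F v‖ : ℝ) : 𝕜)‖ₑ = ‖grad F v‖ₑ := fun v => by
      rw [enorm_eq_nnnorm, enorm_eq_nnnorm, ENNReal.coe_inj, ← NNReal.coe_inj]
      simp
    have hmem : Memℓp (fun v => ((‖grad F v‖ : ℝ) : 𝕜)) 2 :=
      mem_of_finite 𝕜 _ (by simp only [h1]; exact hfin)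
    obtain ⟨G, hG, hn⟩ := of_weight hH (⟨_, hmem⟩ : L 𝕜)
    have h2 : ‖G‖ₑ ^ 2 ≤ ∑' v, ‖grad F v‖ₑ ^ 2 := by
      have h3 : ‖G‖ₑ ≤ ‖(⟨_, hmem⟩ : L 𝕜)‖ₑ := by
        rw [enorm_eq_nnnorm, enorm_eq_nnnorm, ENNReal.coe_le_coe, ← NNReal.coe_le_coe]
        exact hn
      refine (pow_le_pow_left₀ zero_le h3 2).trans (le_of_eq ?_)
      rw [enorm_sq]
      exact tsum_congr fun v => by rw [← h1]
    calc ∫⁻ p : Vertex × Vertex, ‖F (some p.1) - F (some p.2)‖ₑ ^ 2 ∂(μ.prod μ)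
        ≤ ∫⁻ p : Vertex × Vertex, ‖G p‖ₑ ^ 2 ∂(μ.prod μ) := by
          refine lintegral_mono fun p => pow_le_pow_left₀ zero_le ?_ 2
          rw [enorm_eq_nnnorm, enorm_eq_nnnorm, ENNReal.coe_le_coe, ← NNReal.coe_le_coe, hG]
          refine (diff_le 𝕜 F p.1 p.2).trans (le_of_eq ?_)
          have h4 : ∑ v ∈ geo p.1 p.2, (⟨_, hmem⟩ : L 𝕜) v =
              ((∑ v ∈ geo p.1 p.2, ‖grad F v‖ : ℝ) : 𝕜) := by
            push_cast; rfl
          rw [h4, coe_nnnorm, RCLike.norm_ofReal, abs_of_nonneg]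
          exact Finset.sum_nonneg fun v _ => norm_nonneg _
      _ ≤ C * ‖G‖ₑ ^ 2 := hC G
      _ ≤ C * ∑' v, ‖grad F v‖ₑ ^ 2 := by gcongr
      _ ≤ _ := by
          gcongr
          simp

end

end Pool.Agent.Q185.TreeK
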