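import Pool.Agent.Q185.TreeK.Comb

/-!
MP_efe325_an (helper185): two scalar reproducing kernel Hilbert spaces with the same kernel
coincide; the space with kernel `|k|`.
-/

open MeasureTheory Filter
open scoped ENNReal NNReal Topology

namespace Pool.Agent.Q185.TreeK

noncomputable section

section transfer

variable {𝕜 : Type*} [RCLike 𝕜] {X : Type*}

/-- combinations of kernel functions -/
def comb (H : Type*) [NormedAddCommGroup H] [InnerProductSpace 𝕜 H] [CompleteSpace H]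
    [RKHS 𝕜 H X 𝕜] : (X →₀ 𝕜) →ₗ[𝕜] H :=
  Finsupp.linearCombination 𝕜 fun x => RKHS.kerFun H x (1 : 𝕜)

variable (H : Type*) [NormedAddCommGroup H] [InnerProductSpace 𝕜 H] [CompleteSpace H]
    [RKHS 𝕜 H X 𝕜]
variable (K : Type*) [NormedAddCommGroup K] [InnerProductSpace 𝕜 K] [CompleteSpace K]
    [RKHS 𝕜 K X 𝕜]

theorem comb_apply (a : X →₀ 𝕜) (x : X) :
    comb H a x = a.sum fun y c => c * RKHS.kernel H x y (1 : 𝕜) := by
  unfold comb
  rw [Finsupp.linearCombination_apply]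
  have h : ∀ (f : H), f x = inner 𝕜 (RKHS.kerFun H x (1 : 𝕜)) f := fun f => by
    rw [RKHS.kerFun_inner]; simp
  rw [h, Finsupp.inner_sum]
  refine Finsupp.sum_congr fun y _ => ?_
  rw [inner_smul_right, ← h, RKHS.kerFun_apply]

theorem comb_norm (a : X →₀ 𝕜) : (‖comb H a‖ ^ 2 : 𝕜) =
    a.sum fun x c => starRingEnd 𝕜 c * comb H a x := by
  rw [← inner_self_eq_norm_sq_to_K (𝕜 := 𝕜)]
  nth_rw 1 [comb]
  rw [Finsupp.linearCombination_apply, Finsupp.sum_inner]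
  refine Finsupp.sum_congr fun y _ => ?_
  rw [inner_smul_left, RKHS.kerFun_inner]
  simp

theorem comb_norm_eq (h : ∀ x y, RKHS.kernel H x y (1 : 𝕜) = RKHS.kernel K x y (1 : 𝕜))
    (a : X →₀ 𝕜) : ‖comb H a‖ = ‖comb K a‖ := by
  have h1 : ((‖comb H a‖ ^ 2 : ℝ) : 𝕜) = ((‖comb K a‖ ^ 2 : ℝ) : 𝕜) := by
    push_cast
    rw [comb_norm, comb_norm]
    refine Finsupp.sum_congr fun y _ => ?_
    rw [comb_apply, comb_apply]
    simp only [h]
  have h2 : ‖comb H a‖ ^ 2 = ‖comb K a‖ ^ 2 := RCLike.ofReal_injective h1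
  exact (sq_eq_sq₀ (norm_nonneg _) (norm_nonneg _)).1 h2

theorem comb_dense (f : H) : ∃ a : ℕ → X →₀ 𝕜, Tendsto (fun n => comb H (a n)) atTop (𝓝 f) := by
  have h1 : f ∈ closure (Set.range (comb H : (X →₀ 𝕜) → H)) := by
    have h2 : f ∈ (Submodule.span 𝕜 {RKHS.kerFun H x v | (x) (v)}).topologicalClosure := by
      rw [RKHS.kerFun_dense]; trivial
    rw [← SetLike.mem_coe, Submodule.topologicalClosure_coe] at h2
    refine closure_mono ?_ h2
    intro g hg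
    have h3 : g ∈ LinearMap.range (comb H : (X →₀ 𝕜) →ₗ[𝕜] H) := by
      refine (Submodule.span_le.2 ?_) hg
      rintro _ ⟨x, v, rfl⟩
      refine ⟨Finsupp.single x v, ?_⟩
      unfold comb
      rw [Finsupp.linearCombination_single, ← map_smul]
      simp
    exact h3
  obtain ⟨u, hu, hlim⟩ := mem_closure_iff_seq_limit.1 h1
  choose a ha using hu
  exact ⟨a, by simpa only [ha] using hlim⟩

theorem transfer (h : ∀ x y, RKHS.kernel H x y (1 : 𝕜) = RKHS.kernel K x y (1 : 𝕜)) (f : H) :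
    ∃ g : K, (∀ x, g x = f x) ∧ ‖g‖ = ‖f‖ := by
  obtain ⟨a, ha⟩ := comb_dense H f
  have hc : CauchySeq fun n => comb K (a n) := by
    have h1 := ha.cauchySeq
    rw [Metric.cauchySeq_iff] at h1 ⊢
    intro ε hε
    obtain ⟨N, hN⟩ := h1 ε hε
    refine ⟨N, fun m hm n hn => ?_⟩
    have := hN m hm n hn
    rwa [dist_eq_norm, ← map_sub, comb_norm_eq H K h, map_sub, ← dist_eq_norm] at this
  obtain ⟨g, hg⟩ := cauchySeq_tendsto_of_complete hc
  refine ⟨g, fun x => ?_, ?_⟩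
  · have h1 : Tendsto (fun n => comb H (a n) x) atTop (𝓝 (f x)) :=
      ((RKHS.continuous_eval x).tendsto f).comp ha
    have h2 : Tendsto (fun n => comb K (a n) x) atTop (𝓝 (g x)) :=
      ((RKHS.continuous_eval x).tendsto g).comp hg
    refine tendsto_nhds_unique h2 (h1.congr fun n => ?_)
    rw [comb_apply, comb_apply]
    simp only [h]
  · exact tendsto_nhds_unique hg.norm ((ha.norm).congr fun n => comb_norm_eq H K h _)

end transfer

section space

variable (𝕜 : Type) [RCLike 𝕜]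

/-- square summable functions of edges -/
abbrev L : Type := lp (fun _ : Vertex => 𝕜) 2

/-- the feature vector of `(x, y)` -/
def phi (p : Vertex × Vertex) : L 𝕜 := ∑ v ∈ geo p.1 p.2, lp.single 2 v (1 : 𝕜)

theorem inner_phi (p : Vertex × Vertex) (c : L 𝕜) :
    inner 𝕜 (phi 𝕜 p) c = ∑ v ∈ geo p.1 p.2, c v := by
  unfold phi
  rw [sum_inner]
  refine Finset.sum_congr rfl fun v _ => ?_
  rw [lp.inner_single_left]
  simp

theorem inner_phi_phi (p q : Vertex × Vertex) :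
    inner 𝕜 (phi 𝕜 p) (phi 𝕜 q) = ((|k p q| : ℤ) : 𝕜) := by
  rw [abs_k, inner_phi]
  have h : ∀ v : Vertex, phi 𝕜 q v = if v ∈ geo q.1 q.2 then (1 : 𝕜) else 0 := by
    intro v
    have h1 : phi 𝕜 q v = inner 𝕜 (lp.single 2 v (1 : 𝕜)) (phi 𝕜 q) := by
      rw [lp.inner_single_left]; simp
    have h2 : inner 𝕜 (phi 𝕜 q) (lp.single 2 v (1 : 𝕜)) = if v ∈ geo q.1 q.2 then (1 : 𝕜) else 0 := by
      rw [inner_phi]
      simp only [lp.single_apply, Pi.single_apply]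
      rw [Finset.sum_ite_eq']
    rw [h1, ← inner_conj_symm, h2]
    split_ifs <;> simp
  simp only [h]
  rw [← Finset.sum_filter, Finset.filter_mem_eq_inter, Finset.card_eq_sum_ones]
  push_cast
  rfl

/-- the space with kernel `|k|` -/
abbrev Sp : Type := ↥((Submodule.span 𝕜 (Set.range (phi 𝕜))).topologicalClosure)

theorem phi_mem (p : Vertex × Vertex) :
    phi 𝕜 p ∈ (Submodule.span 𝕜 (Set.range (phi 𝕜))).topologicalClosure :=
  Submodule.le_topologicalClosure _ (Submodule.subset_span ⟨p, rfl⟩)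

instance : CompleteSpace (Sp 𝕜) := Submodule.topologicalClosure.completeSpace _

instance spRKHS : RKHS 𝕜 (Sp 𝕜) (Vertex × Vertex) 𝕜 where
  coeCLM := ContinuousLinearMap.pi fun z =>
    (innerSL 𝕜 (phi 𝕜 z)).comp (Submodule.subtypeL _)
  coeCLM_injective := by
    refine (injective_iff_map_eq_zero _).2 fun f hf => ?_
    have h1 : ∀ z, inner 𝕜 (phi 𝕜 z) (f : L 𝕜) = 0 := fun z => congrFun hf z
    have h2 : (f : L 𝕜) ∈ (Submodule.span 𝕜 (Set.range (phi 𝕜)))ᗮ := by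
      rw [Submodule.mem_orthogonal]
      intro u hu
      induction hu using Submodule.span_induction with
      | mem x hx => obtain ⟨z, rfl⟩ := hx; exact h1 z
      | zero => simp
      | add x y _ _ hx hy => rw [inner_add_left, hx, hy, add_zero]
      | smul a x _ hx => rw [inner_smul_left, hx, mul_zero]
    have h3 : (f : L 𝕜) ∈ ((Submodule.span 𝕜 (Set.range (phi 𝕜))).topologicalClosure)ᗮ := by
      rwa [Submodule.orthogonal_closure]
    have h4 : inner 𝕜 (f : L 𝕜) (f : L 𝕜) = 0 := (Submodule.mem_orthogonal _ _).1 h3 f f.2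
    exact Subtype.ext (inner_self_eq_zero.1 h4)

theorem sp_apply (f : Sp 𝕜) (z : Vertex × Vertex) : f z = ∑ v ∈ geo z.1 z.2, (f : L 𝕜) v := by
  rw [← inner_phi]; rfl

theorem sp_kernel (p q : Vertex × Vertex) :
    RKHS.kernel (Sp 𝕜) p q (1 : 𝕜) = ((|k p q| : ℤ) : 𝕜) := by
  rw [← RKHS.kerFun_apply, ← inner_phi_phi]
  have : RKHS.kerFun (Sp 𝕜) q (1 : 𝕜) = (⟨phi 𝕜 q, phi_mem 𝕜 q⟩ : Sp 𝕜) := by
    refine ext_inner_right 𝕜 fun f => ?_
    rw [RKHS.kerFun_inner]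
    have h : f q = inner 𝕜 (phi 𝕜 q) (f : L 𝕜) := rfl
    rw [h]
    simp
  rw [this]
  rfl

theorem sp_of (c : L 𝕜) : ∃ f : Sp 𝕜, (∀ z, f z = ∑ v ∈ geo z.1 z.2, c v) ∧ ‖f‖ ≤ ‖c‖ := by
  refine ⟨((Submodule.span 𝕜 (Set.range (phi 𝕜))).topologicalClosure).orthogonalProjectionOnto c,
    fun z => ?_, Submodule.norm_orthogonalProjectionOnto_apply_le _ _⟩
  rw [← inner_phi]
  exact Submodule.inner_orthogonalProjectionOnto_eq_of_mem_left (⟨phi 𝕜 z, phi_mem 𝕜 z⟩ : Sp 𝕜) c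

variable {𝕜}
variable {H : Type*} [NormedAddCommGroup H] [InnerProductSpace 𝕜 H] [CompleteSpace H]
    [RKHS 𝕜 H (Vertex × Vertex) 𝕜]

/-- every element of `H` comes from edge weights -/
theorem exists_weight (hH : ∀ p q, RKHS.kernel H p q (1 : 𝕜) = ((|k p q| : ℤ) : 𝕜)) (f : H) :
    ∃ c : L 𝕜, (∀ z, f z = ∑ v ∈ geo z.1 z.2, c v) ∧ ‖c‖ = ‖f‖ := by
  obtain ⟨g, hg, hn⟩ := transfer H (Sp 𝕜) (fun p q => by rw [hH, sp_kernel]) f
  exact ⟨g, fun z => by rw [← hg, sp_apply], hn⟩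

theorem of_weight (hH : ∀ p q, RKHS.kernel H p q (1 : 𝕜) = ((|k p q| : ℤ) : 𝕜)) (c : L 𝕜) :
    ∃ f : H, (∀ z, f z = ∑ v ∈ geo z.1 z.2, c v) ∧ ‖f‖ ≤ ‖c‖ := by
  obtain ⟨g, hg, hn⟩ := sp_of 𝕜 c
  obtain ⟨f, hf, hm⟩ := transfer (Sp 𝕜) H (fun p q => by rw [hH, sp_kernel]) g
  exact ⟨f, fun z => by rw [hf, hg], by rw [hm]; exact hn⟩

end space

end

end Pool.Agent.Q185.TreeK
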